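import Pool.Agent.Helper55.BD.Defs

/-! Module D (blueprint D): Toda equation for Hankel determinants. -/

open Set Filter Topology MeasureTheory

namespace Pool.Agent.Helper55.BD

open Pool.Agent.Helper28.Eta (eta sg vdm mup nu)

/-- Derivative of a determinant (column version). -/
theorem hasDerivAt_det_col {n : ℕ} (M : ℝ → Matrix (Fin n) (Fin n) ℝ)
    (M' : Matrix (Fin n) (Fin n) ℝ) (c : ℝ)
    (hM : ∀ i j, HasDerivAt (fun x => M x i j) (M' i j) c) :
    HasDerivAt (fun x => (M x).det)
      (∑ j, ((M c).updateCol j (fun i => M' i j)).det) c := by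
  classical
  have h1 : (fun x => (M x).det) =
      fun x => ∑ σ : Equiv.Perm (Fin n), ((Equiv.Perm.sign σ : ℤ) : ℝ) * ∏ i, M x (σ i) i := by
    funext x
    rw [Matrix.det_apply']
  rw [h1]
  have h2 : ∀ σ : Equiv.Perm (Fin n), HasDerivAt
      (fun x => ((Equiv.Perm.sign σ : ℤ) : ℝ) * ∏ i, M x (σ i) i)
      (((Equiv.Perm.sign σ : ℤ) : ℝ) *
        ∑ j, (∏ i ∈ Finset.univ.erase j, M c (σ i) i) * M' (σ j) j) c := by
    intro σ
    have := HasDerivAt.fun_finsetProd (u := (Finset.univ : Finset (Fin n)))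
      (f := fun i x => M x (σ i) i) (f' := fun i => M' (σ i) i) (x := c)
      (fun i _ => hM (σ i) i)
    have h3 := this.const_mul (((Equiv.Perm.sign σ : ℤ) : ℝ))
    simpa [smul_eq_mul] using h3
  have h4 := HasDerivAt.fun_sum (u := (Finset.univ : Finset (Equiv.Perm (Fin n))))
    (fun σ _ => h2 σ)
  refine h4.congr_deriv ?_
  rw [show (∑ σ : Equiv.Perm (Fin n), ((Equiv.Perm.sign σ : ℤ) : ℝ) *
        ∑ j, (∏ i ∈ Finset.univ.erase j, M c (σ i) i) * M' (σ j) j) =
      ∑ σ : Equiv.Perm (Fin n), ∑ j, ((Equiv.Perm.sign σ : ℤ) : ℝ) *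
        ((∏ i ∈ Finset.univ.erase j, M c (σ i) i) * M' (σ j) j) from
    Finset.sum_congr rfl (fun σ _ => Finset.mul_sum _ _ _)]
  rw [Finset.sum_comm]
  refine Finset.sum_congr rfl (fun j _ => ?_)
  rw [Matrix.det_apply']
  refine Finset.sum_congr rfl (fun σ _ => ?_)
  congr 1
  rw [← Finset.prod_erase_mul (Finset.univ : Finset (Fin n)) _ (Finset.mem_univ j)]
  congr 1
  · refine Finset.prod_congr rfl (fun i hi => ?_)
    rw [Matrix.updateCol_ne (Finset.ne_of_mem_erase hi)]
  · rw [Matrix.updateCol_self]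

/-- Derivative of a determinant (row version). -/
theorem hasDerivAt_det_row {n : ℕ} (M : ℝ → Matrix (Fin n) (Fin n) ℝ)
    (M' : Matrix (Fin n) (Fin n) ℝ) (c : ℝ)
    (hM : ∀ i j, HasDerivAt (fun x => M x i j) (M' i j) c) :
    HasDerivAt (fun x => (M x).det)
      (∑ i, ((M c).updateRow i (fun j => M' i j)).det) c := by
  have h := hasDerivAt_det_col (fun x => (M x).transpose) M'.transpose c
    (fun i j => hM j i)
  simp only [Matrix.det_transpose] at h
  refine h.congr_deriv ?_
  refine Finset.sum_congr rfl (fun i _ => ?_)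
  rw [Matrix.updateCol_transpose, Matrix.det_transpose]
  rfl

theorem hasDerivAt_hank (m : ℕ → ℝ → ℝ) (hm : ∀ k c, HasDerivAt (m k) (m (k + 1) c) c)
    (N : ℕ) (c : ℝ) :
    HasDerivAt (fun c => hank (fun k => m k c) N) (hank1 (fun k => m k c) N) c := by
  cases N with
  | zero =>
    simp only [hank, hank1, Matrix.det_isEmpty]
    exact hasDerivAt_const c (1 : ℝ)
  | succ N =>
    have h := hasDerivAt_det_col
      (fun c => Matrix.of fun j k : Fin (N + 1) => m ((j : ℕ) + (k : ℕ)) c)
      (Matrix.of fun j k : Fin (N + 1) => m ((j : ℕ) + (k : ℕ) + 1) c) c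
      (fun i j => hm _ c)
    unfold hank
    refine h.congr_deriv ?_
    rw [Fin.sum_univ_castSucc]
    rw [Finset.sum_eq_zero, zero_add]
    · unfold hank1
      refine congrArg Matrix.det ?_
      ext j k
      by_cases hk : k = Fin.last N
      · subst hk
        simp [add_assoc]
      · rw [Matrix.updateCol_ne hk]
        have hk' : (k : ℕ) ≠ N := fun h => hk (Fin.ext h)
        simp [hk']
    · intro k _
      have hne : (Fin.castSucc k : Fin (N + 1)) ≠ k.succ := by
        intro h
        have := congrArg Fin.val h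
        simp at this
      apply Matrix.det_zero_of_column_eq hne
      intro j
      rw [Matrix.updateCol_self, Matrix.updateCol_ne hne.symm]
      simp [add_assoc]

/-- Bordered matrix. -/
noncomputable def bord {R : Type*} [CommRing R] {N : ℕ} (A : Matrix (Fin N) (Fin N) R)
    (B : Matrix (Fin N) (Fin 2) R) (C : Matrix (Fin 2) (Fin N) R)
    (D : Matrix (Fin 2) (Fin 2) R) (a b : Fin 2) : Matrix (Fin N ⊕ Fin 1) (Fin N ⊕ Fin 1) R :=
  Matrix.fromBlocks A (Matrix.of fun j _ => B j b) (Matrix.of fun _ k => C a k)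
    (Matrix.of fun _ _ => D a b)

theorem desnanot_of_invertible {N : ℕ} (A : Matrix (Fin N) (Fin N) ℝ)
    (B : Matrix (Fin N) (Fin 2) ℝ) (C : Matrix (Fin 2) (Fin N) ℝ)
    (D : Matrix (Fin 2) (Fin 2) ℝ) (hA : A.det ≠ 0) :
    (Matrix.fromBlocks A B C D).det * A.det =
      (bord A B C D 0 0).det * (bord A B C D 1 1).det -
        (bord A B C D 0 1).det * (bord A B C D 1 0).det := by
  have : Invertible A := Matrix.invertibleOfIsUnitDet A (isUnit_iff_ne_zero.mpr hA)
  have key : ∀ a b : Fin 2, (bord A B C D a b).det = A.det * (D - C * ⅟A * B) a b := by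
    intro a b
    unfold bord
    rw [Matrix.det_fromBlocks₁₁]
    congr 1
    rw [Matrix.det_unique]
    simp [Matrix.mul_apply, Matrix.sub_apply]
  rw [Matrix.det_fromBlocks₁₁, Matrix.det_fin_two, key, key, key, key]
  ring

theorem continuous_det_bord {N : ℕ} (A : Matrix (Fin N) (Fin N) ℝ)
    (B : Matrix (Fin N) (Fin 2) ℝ) (C : Matrix (Fin 2) (Fin N) ℝ)
    (D : Matrix (Fin 2) (Fin 2) ℝ) (a b : Fin 2) :
    Continuous fun x : ℝ => (bord (x • (1 : Matrix (Fin N) (Fin N) ℝ) - A) B C D a b).det := by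
  refine Continuous.matrix_det ?_
  unfold bord
  refine Continuous.matrix_fromBlocks ?_ continuous_const continuous_const continuous_const
  fun_prop

theorem desnanot {N : ℕ} (A : Matrix (Fin N) (Fin N) ℝ)
    (B : Matrix (Fin N) (Fin 2) ℝ) (C : Matrix (Fin 2) (Fin N) ℝ)
    (D : Matrix (Fin 2) (Fin 2) ℝ) :
    (Matrix.fromBlocks A B C D).det * A.det =
      (bord A B C D 0 0).det * (bord A B C D 1 1).det -
        (bord A B C D 0 1).det * (bord A B C D 1 0).det := by
  -- perturb `A` to `x • 1 - (-A)`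
  set A₀ : Matrix (Fin N) (Fin N) ℝ := -A with hA₀
  have hdense : Dense ({x : ℝ | (x • (1 : Matrix (Fin N) (Fin N) ℝ) - A₀).det ≠ 0}) := by
    have hfin : ({x : ℝ | (x • (1 : Matrix (Fin N) (Fin N) ℝ) - A₀).det = 0}).Finite := by
      refine (Polynomial.finite_setOfPred_isRoot (Matrix.charpoly_monic A₀).ne_zero).subset ?_
      intro x hx
      simp only [Set.mem_ofPred_eq] at hx ⊢
      rw [Polynomial.IsRoot, Matrix.eval_charpoly]
      rw [← hx]
      congr 1
      rw [Matrix.scalar_apply, Matrix.smul_one_eq_diagonal]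
    have : ({x : ℝ | (x • (1 : Matrix (Fin N) (Fin N) ℝ) - A₀).det ≠ 0}) =
        ({x : ℝ | (x • (1 : Matrix (Fin N) (Fin N) ℝ) - A₀).det = 0})ᶜ := rfl
    rw [this]
    exact hfin.countable.dense_compl ℝ
  have hcA : Continuous fun x : ℝ => (x • (1 : Matrix (Fin N) (Fin N) ℝ) - A₀) := by fun_prop
  have h1 : Continuous fun x : ℝ =>
      (Matrix.fromBlocks (x • (1 : Matrix (Fin N) (Fin N) ℝ) - A₀) B C D).det *
        (x • (1 : Matrix (Fin N) (Fin N) ℝ) - A₀).det := by
    refine Continuous.mul (Continuous.matrix_det ?_) (Continuous.matrix_det hcA)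
    exact Continuous.matrix_fromBlocks hcA continuous_const continuous_const continuous_const
  have h2 : Continuous fun x : ℝ =>
      (bord (x • (1 : Matrix (Fin N) (Fin N) ℝ) - A₀) B C D 0 0).det *
        (bord (x • (1 : Matrix (Fin N) (Fin N) ℝ) - A₀) B C D 1 1).det -
      (bord (x • (1 : Matrix (Fin N) (Fin N) ℝ) - A₀) B C D 0 1).det *
        (bord (x • (1 : Matrix (Fin N) (Fin N) ℝ) - A₀) B C D 1 0).det :=
    ((continuous_det_bord _ _ _ _ _ _).mul (continuous_det_bord _ _ _ _ _ _)).sub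
      ((continuous_det_bord _ _ _ _ _ _).mul (continuous_det_bord _ _ _ _ _ _))
  have h3 := Continuous.ext_on hdense h1 h2 (fun x hx => desnanot_of_invertible _ B C D hx)
  have h4 := congrFun h3 0
  simpa [hA₀] using h4

theorem hank_eq_blocks (m : ℕ → ℝ) (N : ℕ) :
    hank m (N + 2) = (Matrix.fromBlocks
      (Matrix.of fun j k : Fin N => m ((j : ℕ) + (k : ℕ)))
      (Matrix.of fun (j : Fin N) (b : Fin 2) => m ((j : ℕ) + (N + (b : ℕ))))
      (Matrix.of fun (a : Fin 2) (k : Fin N) => m ((N + (a : ℕ)) + (k : ℕ)))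
      (Matrix.of fun (a b : Fin 2) => m ((N + (a : ℕ)) + (N + (b : ℕ))))).det := by
  unfold hank
  rw [← Matrix.det_submatrix_equiv_self (finSumFinEquiv : Fin N ⊕ Fin 2 ≃ Fin (N + 2))]
  congr 1
  ext i j
  rcases i with i | i <;> rcases j with j | j <;> simp

theorem det_bord_eq (m : ℕ → ℝ) (N : ℕ) (a b : Fin 2) :
    (bord (Matrix.of fun j k : Fin N => m ((j : ℕ) + (k : ℕ)))
      (Matrix.of fun (j : Fin N) (b : Fin 2) => m ((j : ℕ) + (N + (b : ℕ))))
      (Matrix.of fun (a : Fin 2) (k : Fin N) => m ((N + (a : ℕ)) + (k : ℕ)))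
      (Matrix.of fun (a b : Fin 2) => m ((N + (a : ℕ)) + (N + (b : ℕ)))) a b).det =
    (Matrix.of fun j k : Fin (N + 1) =>
      m ((if (j : ℕ) = N then N + (a : ℕ) else (j : ℕ)) +
        (if (k : ℕ) = N then N + (b : ℕ) else (k : ℕ)))).det := by
  rw [← Matrix.det_submatrix_equiv_self (finSumFinEquiv : Fin N ⊕ Fin 1 ≃ Fin (N + 1))]
  congr 1
  ext i j
  have hlt : ∀ i : Fin N, (i : ℕ) ≠ N := fun i => i.2.ne
  rcases i with i | i <;> rcases j with j | j <;>
    simp [bord, hlt]

/-- Toda equation: `D_N D_N'' - (D_N')^2 = D_{N+1} D_{N-1}` (here `N + 1` in place of `N`). -/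
theorem hasDerivAt_hank1 (m : ℕ → ℝ → ℝ) (hm : ∀ k c, HasDerivAt (m k) (m (k + 1) c) c)
    (N : ℕ) (c : ℝ) :
    ∃ d : ℝ, HasDerivAt (fun c => hank1 (fun k => m k c) (N + 1)) d c ∧
      hank (fun k => m k c) (N + 1) * d - hank1 (fun k => m k c) (N + 1) ^ 2 =
        hank (fun k => m k c) (N + 2) * hank (fun k => m k c) N := by
  refine ⟨(Matrix.of fun j k : Fin (N + 1) =>
      m ((if (j : ℕ) = N then N + 1 else (j : ℕ)) +
        (if (k : ℕ) = N then N + 1 else (k : ℕ))) c).det, ?_, ?_⟩
  · have h := hasDerivAt_det_row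
      (fun c => Matrix.of fun j k : Fin (N + 1) =>
        m ((j : ℕ) + (if (k : ℕ) = N then N + 1 else (k : ℕ))) c)
      (Matrix.of fun j k : Fin (N + 1) =>
        m ((j : ℕ) + (if (k : ℕ) = N then N + 1 else (k : ℕ)) + 1) c) c
      (fun i j => hm _ c)
    unfold hank1
    refine h.congr_deriv ?_
    rw [Fin.sum_univ_castSucc]
    rw [Finset.sum_eq_zero, zero_add]
    · refine congrArg Matrix.det ?_
      ext j k
      by_cases hj : j = Fin.last N
      · subst hj
        rw [Matrix.updateRow_self]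
        simp only [Matrix.of_apply, Fin.val_last, if_true]
        congr 1
        omega
      · rw [Matrix.updateRow_ne hj]
        have hj' : (j : ℕ) ≠ N := fun h => hj (Fin.ext h)
        simp [hj']
    · intro k _
      have hne : (Fin.castSucc k : Fin (N + 1)) ≠ k.succ := by
        intro h
        have := congrArg Fin.val h
        simp at this
      apply Matrix.det_zero_of_row_eq hne
      funext j
      rw [Matrix.updateRow_self, Matrix.updateRow_ne hne.symm]
      simp only [Matrix.of_apply, Fin.val_castSucc, Fin.val_succ]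
      congr 1
      omega
  · have key := desnanot (Matrix.of fun j k : Fin N => m ((j : ℕ) + (k : ℕ)) c)
      (Matrix.of fun (j : Fin N) (b : Fin 2) => m ((j : ℕ) + (N + (b : ℕ))) c)
      (Matrix.of fun (a : Fin 2) (k : Fin N) => m ((N + (a : ℕ)) + (k : ℕ)) c)
      (Matrix.of fun (a b : Fin 2) => m ((N + (a : ℕ)) + (N + (b : ℕ))) c)
    have hb := det_bord_eq (fun k => m k c) N
    rw [← hank_eq_blocks (fun k => m k c) N, hb 0 0, hb 1 1, hb 0 1, hb 1 0] at key
    have h00 : (Matrix.of fun j k : Fin (N + 1) =>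
        m ((if (j : ℕ) = N then N + ((0 : Fin 2) : ℕ) else (j : ℕ)) +
        (if (k : ℕ) = N then N + ((0 : Fin 2) : ℕ) else (k : ℕ))) c).det =
        hank (fun k => m k c) (N + 1) := by
      unfold hank
      congr 1
      ext j k
      simp only [Matrix.of_apply, Fin.val_zero, add_zero]
      congr 1
      split_ifs <;> omega
    have h01 : (Matrix.of fun j k : Fin (N + 1) =>
        m ((if (j : ℕ) = N then N + ((0 : Fin 2) : ℕ) else (j : ℕ)) +
        (if (k : ℕ) = N then N + ((1 : Fin 2) : ℕ) else (k : ℕ))) c).det =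
        hank1 (fun k => m k c) (N + 1) := by
      unfold hank1
      congr 1
      ext j k
      simp only [Matrix.of_apply, Fin.val_zero, Fin.val_one, add_zero]
      congr 1
      split_ifs <;> omega
    have h10 : (Matrix.of fun j k : Fin (N + 1) =>
        m ((if (j : ℕ) = N then N + ((1 : Fin 2) : ℕ) else (j : ℕ)) +
        (if (k : ℕ) = N then N + ((0 : Fin 2) : ℕ) else (k : ℕ))) c).det =
        hank1 (fun k => m k c) (N + 1) := by
      rw [← h01, ← Matrix.det_transpose]
      congr 1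
      ext j k
      simp only [Matrix.of_apply, Matrix.transpose_apply]
      congr 1
      omega
    have h11 : (Matrix.of fun j k : Fin (N + 1) =>
        m ((if (j : ℕ) = N then N + ((1 : Fin 2) : ℕ) else (j : ℕ)) +
        (if (k : ℕ) = N then N + ((1 : Fin 2) : ℕ) else (k : ℕ))) c).det =
        (Matrix.of fun j k : Fin (N + 1) =>
      m ((if (j : ℕ) = N then N + 1 else (j : ℕ)) +
        (if (k : ℕ) = N then N + 1 else (k : ℕ))) c).det := by
      rfl
    rw [h00, h01, h10, h11] at key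
    have hN : (Matrix.of fun j k : Fin N => m ((j : ℕ) + (k : ℕ)) c).det =
        hank (fun k => m k c) N := rfl
    rw [hN] at key
    rw [key]
    ring

end Pool.Agent.Helper55.BD
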